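import Mathlib

/-!
# Cycles of the `5x+1` map: the smallest element is at most `C exp (δ P)`, `P` the period
-/

set_option autoImplicit false

namespace Pool.Agent.N527.FD

/-- the `5x+1` map -/
def f5 (n : ℤ) : ℤ := if n % 2 = 0 then n / 2 else (5 * n + 1) / 2

theorem f5_pos {n : ℤ} (h : 1 ≤ n) : 1 ≤ f5 n := by
  unfold f5
  split_ifs with h1 <;> omega

theorem iter_pos {n : ℤ} (h : 1 ≤ n) (k : ℕ) : 1 ≤ f5^[k] n := by
  induction k with
  | zero => exact h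
  | succ k ih =>
    rw [Function.iterate_succ_apply']
    exact f5_pos ih

theorem f5_neg {n : ℤ} (h : n ≤ -1) : f5 n ≤ -1 := by
  unfold f5
  split_ifs with h1 <;> omega

theorem iter_neg {n : ℤ} (h : n ≤ -1) (k : ℕ) : f5^[k] n ≤ -1 := by
  induction k with
  | zero => exact h
  | succ k ih =>
    rw [Function.iterate_succ_apply']
    exact f5_neg ih

/-- number of the odd steps -/
def od (n : ℤ) : ℕ → ℕ
  | 0 => 0
  | k + 1 => od n k + if f5^[k] n % 2 = 0 then 0 else 1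

theorem od_le (n : ℤ) (k : ℕ) : od n k ≤ k := by
  induction k with
  | zero => exact le_rfl
  | succ k ih =>
    rw [od]
    split_ifs <;> omega

/-- `5 ^ o c ≤ 2 ^ k T ^ k (c) ≤ (5 + 1 / c) ^ o c` if all iterates are at least `c ≥ 1` -/
theorem bounds {c : ℤ} (hc : 1 ≤ c) (hmin : ∀ l, c ≤ f5^[l] c) (k : ℕ) :
    (5 : ℝ) ^ od c k * c ≤ 2 ^ k * (f5^[k] c : ℤ) ∧
      2 ^ k * ((f5^[k] c : ℤ) : ℝ) ≤ (5 + 1 / (c : ℝ)) ^ od c k * c := by
  have hc0 : (0 : ℝ) < c := by exact_mod_cast (by omega : 0 < c)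
  induction k with
  | zero => simp [od]
  | succ k ih =>
    obtain ⟨h1, h2⟩ := ih
    rw [Function.iterate_succ_apply', od]
    have hx : (c : ℝ) ≤ ((f5^[k] c : ℤ) : ℝ) := by exact_mod_cast hmin k
    generalize f5^[k] c = x at h1 h2 hx
    unfold f5
    split_ifs with hp
    · have hx2 : (((x / 2 : ℤ)) : ℝ) * 2 = x := by
        have : x / 2 * 2 = x := by omega
        exact_mod_cast this
      have e : (2 : ℝ) ^ (k + 1) * ((x / 2 : ℤ) : ℝ) = 2 ^ k * x := by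
        rw [pow_succ, mul_assoc, mul_comm (2 : ℝ), hx2]
      rw [add_zero, e]
      exact ⟨h1, h2⟩
    · have hx2 : ((((5 * x + 1) / 2 : ℤ)) : ℝ) * 2 = 5 * x + 1 := by
        have : (5 * x + 1) / 2 * 2 = 5 * x + 1 := by omega
        exact_mod_cast this
      have e : (2 : ℝ) ^ (k + 1) * (((5 * x + 1) / 2 : ℤ) : ℝ) = 2 ^ k * (5 * x + 1) := by
        rw [pow_succ, mul_assoc, mul_comm (2 : ℝ), hx2]
      rw [e, pow_succ, pow_succ]
      have h2k : (0 : ℝ) < 2 ^ k := by positivity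
      constructor
      · nlinarith
      · have h3 : (5 * (x : ℝ) + 1) ≤ (5 + 1 / (c : ℝ)) * x := by
          have : 1 ≤ 1 / (c : ℝ) * x := by
            rw [one_div, ← div_eq_inv_mul, le_div_iff₀ hc0]
            linarith
          linarith
        have h4 : (0 : ℝ) < 5 + 1 / (c : ℝ) := by positivity
        calc (2 : ℝ) ^ k * (5 * x + 1) ≤ 2 ^ k * ((5 + 1 / (c : ℝ)) * x) :=
              mul_le_mul_of_nonneg_left h3 h2k.le
          _ = (5 + 1 / (c : ℝ)) * (2 ^ k * x) := by ring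
          _ ≤ (5 + 1 / (c : ℝ)) * ((5 + 1 / (c : ℝ)) ^ od c k * c) :=
              mul_le_mul_of_nonneg_left h2 h4.le
          _ = _ := by ring

/-- the conclusion of the theorem of Ridout -/
def Rid : Prop := ∀ δ : ℝ, 0 < δ →
    ∃ N0 : ℕ, ∀ N : ℕ, N0 ≤ N → ∀ L K : ℕ, δ * L ≤ N → δ * K ≤ N → ∀ X D : ℤ, X ≠ 0 → D ≠ 0 →
      (2 : ℤ) ^ L ∣ X → (5 : ℤ) ^ K ∣ X + D →
      |(X : ℝ)| * |(D : ℝ)| ≤ (2 : ℝ) ^ L * (5 : ℝ) ^ K * Real.exp (-(δ * N)) →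
      |(D : ℝ)| ≤ (2 : ℝ) ^ L * Real.exp (-(δ * N)) → False

/-- `2 ^ P - 5 ^ o` is large -/
theorem gap (hR : Rid) {δ : ℝ} (hδ : 0 < δ) : ∃ C : ℝ, 1 ≤ C ∧ ∀ P o : ℕ, 1 ≤ P → o ≤ P →
    (5 : ℝ) ^ o ≤ 2 ^ P → (5 : ℝ) ^ o ≤ C * Real.exp (δ ^ 2 * P) * (2 ^ P - 5 ^ o) := by
  obtain ⟨N0, hN0⟩ := hR δ hδ
  refine ⟨Real.exp (δ * (N0 + 1)), Real.one_le_exp (by positivity), fun P o hP ho hle => ?_⟩
  obtain ⟨N, hN⟩ : ∃ N : ℕ, N = ⌈δ * P⌉₊ + N0 := ⟨_, rfl⟩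
  have h1 : δ * P ≤ N := by
    rw [hN]
    push_cast
    linarith [Nat.le_ceil (δ * P), (Nat.cast_nonneg N0 : (0 : ℝ) ≤ N0)]
  have h2 : (N : ℝ) ≤ δ * P + 1 + N0 := by
    rw [hN]
    push_cast
    linarith [(Nat.ceil_lt_add_one (by positivity : 0 ≤ δ * (P : ℝ))).le]
  have h3 : δ * o ≤ N := by
    have : (o : ℝ) ≤ P := by exact_mod_cast ho
    exact (mul_le_mul_of_nonneg_left this hδ.le).trans h1
  have hDne : (2 : ℤ) ^ P - 5 ^ o ≠ 0 := by
    intro h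
    have h4 : (2 : ℤ) ^ P = 5 ^ o := by linarith
    have h5 : (5 : ℤ) ^ o % 2 = 1 :=
      Int.odd_iff.mp ((Int.odd_iff.mpr (by norm_num : (5 : ℤ) % 2 = 1)).pow)
    have h6 : (2 : ℤ) ∣ 2 ^ P := dvd_pow_self 2 (by omega)
    omega
  have hD0 : (0 : ℝ) ≤ 2 ^ P - 5 ^ o := by linarith
  have hkey := hN0 N (by omega) P o h1 h3 (-(2 : ℤ) ^ P) (2 ^ P - 5 ^ o)
    (neg_ne_zero.mpr (by positivity)) hDne (Dvd.intro (-1) (by ring))
    (Dvd.intro (-1) (by ring))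
  have habs : |(((2 : ℤ) ^ P - 5 ^ o : ℤ) : ℝ)| = 2 ^ P - 5 ^ o := by
    push_cast
    exact abs_of_nonneg hD0
  have habs2 : |((-(2 : ℤ) ^ P : ℤ) : ℝ)| = 2 ^ P := by
    push_cast
    rw [abs_neg]
    exact abs_of_nonneg (by positivity)
  rw [habs, habs2] at hkey
  by_contra hcon
  push Not at hcon
  have h7 : (2 : ℝ) ^ P - 5 ^ o ≤ 5 ^ o * Real.exp (-(δ * N)) := by
    have e1 : Real.exp (δ * N) ≤ Real.exp (δ * (N0 + 1)) * Real.exp (δ ^ 2 * P) := by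
      rw [← Real.exp_add]
      apply Real.exp_le_exp.mpr
      nlinarith
    have e2 : Real.exp (δ * N) * (2 ^ P - 5 ^ o) ≤ 5 ^ o :=
      (mul_le_mul_of_nonneg_right e1 hD0).trans hcon.le
    rw [Real.exp_neg, ← div_eq_mul_inv, le_div_iff₀ (Real.exp_pos _)]
    linarith
  apply hkey
  · calc (2 : ℝ) ^ P * (2 ^ P - 5 ^ o) ≤ 2 ^ P * (5 ^ o * Real.exp (-(δ * N))) :=
        mul_le_mul_of_nonneg_left h7 (by positivity)
      _ = _ := by ring
  · exact h7.trans (mul_le_mul_of_nonneg_right hle (Real.exp_pos _).le)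

/-- the smallest element of a cycle of period `P` is at most `C exp (δ P)` -/
theorem cycle_small (hR : Rid) {δ : ℝ} (hδ : 0 < δ) : ∃ C : ℝ, 1 ≤ C ∧ ∀ (c : ℤ) (P : ℕ),
    1 ≤ c → 1 ≤ P → f5^[P] c = c → (∀ l, c ≤ f5^[l] c) → (c : ℝ) ≤ C * Real.exp (δ * P) := by
  obtain ⟨ρ, hρ, hρ2⟩ : ∃ ρ : ℝ, 0 < ρ ∧ ρ ^ 2 = δ / 2 :=
    ⟨Real.sqrt (δ / 2), Real.sqrt_pos.mpr (by positivity), Real.sq_sqrt (by positivity)⟩
  obtain ⟨C, hC, hgap⟩ := gap hR hρ
  refine ⟨C * (1 + 2 / δ), by nlinarith [(by positivity : 0 < 2 / δ)], ?_⟩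
  intro c P hc hP hper hmin
  have hc0 : (0 : ℝ) < c := by exact_mod_cast (by omega : 0 < c)
  obtain ⟨h1, h2⟩ := bounds hc hmin P
  rw [hper] at h1 h2
  obtain ⟨o, ho⟩ : ∃ o : ℕ, o = od c P := ⟨_, rfl⟩
  rw [← ho] at h1 h2
  have hoP : o ≤ P := ho ▸ od_le c P
  have h3 : (5 : ℝ) ^ o ≤ 2 ^ P := le_of_mul_le_mul_right h1 hc0
  have h4 : (2 : ℝ) ^ P ≤ (5 + 1 / (c : ℝ)) ^ o := le_of_mul_le_mul_right h2 hc0
  have h5 := hgap P o hP hoP h3
  have hPe : (P : ℝ) ≤ 2 / δ * Real.exp (δ / 2 * P) := by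
    have := Real.add_one_le_exp (δ / 2 * P)
    rw [div_mul_eq_mul_div, le_div_iff₀ hδ]
    nlinarith
  have hE1 : 1 ≤ Real.exp (δ / 2 * P) := Real.one_le_exp (by positivity)
  have hEE : Real.exp (δ * P) = Real.exp (δ / 2 * P) * Real.exp (δ / 2 * P) := by
    rw [← Real.exp_add]
    congr 1
    ring
  rw [hρ2] at h5
  obtain ⟨E, hE⟩ : ∃ E : ℝ, E = Real.exp (δ / 2 * P) := ⟨_, rfl⟩
  rw [← hE] at hPe hE1 hEE h5
  rw [hEE]
  have hδ0 : 0 < 2 / δ := by positivity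
  have hfin : (P : ℝ) * (C * E) ≤ C * (1 + 2 / δ) * (E * E) := by
    calc (P : ℝ) * (C * E) ≤ (2 / δ * E) * (C * E) :=
          mul_le_mul_of_nonneg_right hPe (by positivity)
      _ = C * (2 / δ) * (E * E) := by ring
      _ ≤ C * (1 + 2 / δ) * (E * E) := by
        apply mul_le_mul_of_nonneg_right _ (by positivity)
        apply mul_le_mul_of_nonneg_left _ (by linarith)
        linarith
  refine le_trans ?_ hfin
  by_cases hco : (o : ℝ) ≤ c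
  · have ht : (o : ℝ) / (5 * c) ≤ 1 := by
      rw [div_le_one (by positivity)]
      linarith
    have ht0 : 0 ≤ (o : ℝ) / (5 * c) := by positivity
    have h6 : (5 + 1 / (c : ℝ)) ^ o ≤ 5 ^ o * (1 + 2 * (o / (5 * c))) := by
      have e1 : (5 + 1 / (c : ℝ)) = 5 * (1 + 1 / (5 * c)) := by
        field_simp
      have e2 : (1 + 1 / (5 * (c : ℝ))) ^ o ≤ Real.exp (o / (5 * c)) := by
        have e3 : (1 + 1 / (5 * (c : ℝ))) ≤ Real.exp (1 / (5 * c)) := by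
          have := Real.add_one_le_exp (1 / (5 * (c : ℝ)))
          linarith
        calc (1 + 1 / (5 * (c : ℝ))) ^ o ≤ Real.exp (1 / (5 * c)) ^ o :=
              pow_le_pow_left₀ (by positivity) e3 o
          _ = Real.exp (o / (5 * c)) := by
            rw [← Real.exp_nat_mul]
            congr 1
            ring
      have e4 : Real.exp ((o : ℝ) / (5 * c)) ≤ 1 + 2 * (o / (5 * c)) := by
        have := Real.abs_exp_sub_one_le (x := (o : ℝ) / (5 * c)) (by rwa [abs_of_nonneg ht0])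
        rw [abs_of_nonneg ht0] at this
        linarith [(abs_le.mp this).2]
      rw [e1, mul_pow]
      exact mul_le_mul_of_nonneg_left (e2.trans e4) (by positivity)
    have h7 : (2 : ℝ) ^ P - 5 ^ o ≤ 5 ^ o * (o / c) := by
      have e5 : 2 * ((o : ℝ) / (5 * c)) ≤ o / c := by
        rw [← sub_nonneg]
        have : (o : ℝ) / c - 2 * (o / (5 * c)) = 3 / 5 * (o / c) := by
          field_simp
          ring
        rw [this]
        positivity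
      have e6 : (5 : ℝ) ^ o * (1 + 2 * (o / (5 * c))) ≤ 5 ^ o * (1 + o / c) :=
        mul_le_mul_of_nonneg_left (by linarith) (by positivity)
      linarith [h4.trans (h6.trans e6)]
    have h8 : (5 : ℝ) ^ o ≤ C * E * (5 ^ o * (o / c)) :=
      h5.trans (mul_le_mul_of_nonneg_left h7 (by positivity))
    have h9 : (1 : ℝ) ≤ C * E * (o / c) := by
      have h50 : (0 : ℝ) < 5 ^ o := by positivity
      have : (5 : ℝ) ^ o * 1 ≤ 5 ^ o * (C * E * (o / c)) := by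
        rw [mul_one]
        calc (5 : ℝ) ^ o ≤ C * E * (5 ^ o * (o / c)) := h8
          _ = _ := by ring
      exact le_of_mul_le_mul_left this h50
    have h10 : (c : ℝ) ≤ C * E * o := by
      have e7 : C * E * ((o : ℝ) / c) = C * E * o / c := by ring
      rw [e7, le_div_iff₀ hc0, one_mul] at h9
      exact h9
    have h11 : (o : ℝ) ≤ P := by exact_mod_cast hoP
    calc (c : ℝ) ≤ C * E * o := h10
      _ ≤ C * E * P := mul_le_mul_of_nonneg_left h11 (by positivity)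
      _ = P * (C * E) := by ring
  · have h11 : (o : ℝ) ≤ P := by exact_mod_cast hoP
    have h12 : (1 : ℝ) ≤ C * E := by nlinarith
    have h13 : (0 : ℝ) ≤ P := Nat.cast_nonneg _
    nlinarith

/-- if `T ^ i (n) = T ^ j (n)`, `i < j`, then the orbit reaches a number `c ≤ C exp (δ j)` at a time
at most `j` -/
theorem reach_small (hR : Rid) {δ : ℝ} (hδ : 0 < δ) : ∃ C : ℝ, 1 ≤ C ∧ ∀ (n : ℤ) (i j : ℕ),
    1 ≤ n → i < j → f5^[i] n = f5^[j] n →
      ∃ k : ℕ, k ≤ j ∧ 1 ≤ f5^[k] n ∧ ((f5^[k] n : ℤ) : ℝ) ≤ C * Real.exp (δ * j) := by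
  obtain ⟨C, hC, h⟩ := cycle_small hR hδ
  refine ⟨C, hC, fun n i j hn hij he => ?_⟩
  obtain ⟨P, rfl⟩ : ∃ P : ℕ, j = i + P := ⟨j - i, by omega⟩
  have hP : 0 < P := by omega
  have hz : Function.IsPeriodicPt f5 P (f5^[i] n) := by
    change f5^[P] (f5^[i] n) = f5^[i] n
    rw [← Function.iterate_add_apply, add_comm P i]
    exact he.symm
  have hadd : ∀ r, f5^[r + i] n = f5^[r] (f5^[i] n) := fun r => Function.iterate_add_apply f5 r i n
  have h1n : 1 ≤ f5^[i] n := iter_pos hn i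
  generalize f5^[i] n = z at hz hadd h1n
  obtain ⟨r, hr, hrm⟩ := Finset.exists_min_image (Finset.range P) (fun r => f5^[r] z)
    ⟨0, Finset.mem_range.mpr hP⟩
  have hrP := Finset.mem_range.mp hr
  have hc : ∀ l, f5^[r] z ≤ f5^[l] (f5^[r] z) := by
    intro l
    rw [← Function.iterate_add_apply, ← hz.iterate_mod_apply (l + r)]
    exact hrm _ (Finset.mem_range.mpr (Nat.mod_lt _ hP))
  have hper : f5^[P] (f5^[r] z) = f5^[r] z := by
    rw [← Function.iterate_add_apply, add_comm P r, Function.iterate_add_apply]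
    congr 1
  have h1 : 1 ≤ f5^[r] z := iter_pos h1n r
  have h2 := h _ P h1 hP hper hc
  refine ⟨r + i, by omega, ?_, ?_⟩
  · rw [hadd]
    exact h1
  · rw [hadd]
    refine h2.trans (mul_le_mul_of_nonneg_left (Real.exp_le_exp.mpr ?_) (by linarith))
    apply mul_le_mul_of_nonneg_left _ hδ.le
    push_cast
    linarith [(Nat.cast_nonneg i : (0 : ℝ) ≤ i)]

/-! ### Counting -/

open Filter Topology

/-- the descending numbers of the library -/
def PSet (α x y : ℝ) : Set ℤ :=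
  {n : ℤ | 0 < 1 * n ∧ y < |(n : ℝ)| ∧ |(n : ℝ)| ≤ x ∧
    ∃ k : ℕ, |((f5^[k] n : ℤ) : ℝ)| ≤ y ∧ (k : ℝ) ≤ α * (Real.log |(n : ℝ)| - Real.log y)}

/-- the numbers of the library which reach `1` fast -/
def CSet (α x : ℝ) : Set ℤ :=
  {n : ℤ | n ≠ 0 ∧ |(n : ℝ)| ≤ x ∧ ∃ k : ℕ, f5^[k] n ∈ ({1} : Set ℤ) ∧
    (k : ℝ) ≤ α * Real.log |(n : ℝ)|}

/-- periodic within `A log x` steps -/
def PP (A x : ℝ) : Set ℤ :=
  {n : ℤ | 1 ≤ n ∧ (n : ℝ) ≤ x ∧ ∃ i j : ℕ, i < j ∧ (j : ℝ) ≤ A * Real.log x ∧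
    f5^[i] n = f5^[j] n}

/-- periodic within `A log n` steps -/
def RR (A x : ℝ) : Set ℤ :=
  {n : ℤ | 1 ≤ n ∧ (n : ℝ) ≤ x ∧ ∃ i j : ℕ, i < j ∧ (j : ℝ) ≤ A * Real.log n ∧
    f5^[i] n = f5^[j] n}

theorem fin_of' {S : Set ℤ} {x : ℝ} (h : ∀ n ∈ S, |(n : ℝ)| ≤ x) : S.Finite := by
  refine (Finset.Icc (-⌊x⌋) ⌊x⌋).finite_toSet.subset ?_
  intro n hn
  rw [Finset.mem_coe, Finset.mem_Icc]
  have h1 := abs_le.1 (h n hn)
  have h2 : n ≤ ⌊x⌋ := Int.le_floor.2 h1.2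
  have h3 : -n ≤ ⌊x⌋ := Int.le_floor.2 (by push_cast; linarith [h1.1])
  exact ⟨by omega, h2⟩

theorem abs_of_one_le {n : ℤ} (h : 1 ≤ n) : |(n : ℝ)| = n := by
  have : (1 : ℝ) ≤ n := by exact_mod_cast h
  exact abs_of_nonneg (by linarith)

theorem ncard_small {z : ℝ} (hz : 0 ≤ z) : (({n : ℤ | 1 ≤ n ∧ (n : ℝ) ≤ z}.ncard : ℕ) : ℝ) ≤ z := by
  have h1 : {n : ℤ | 1 ≤ n ∧ (n : ℝ) ≤ z} = ((Finset.Icc (1 : ℤ) ⌊z⌋ : Finset ℤ) : Set ℤ) := by
    ext n
    simp only [Set.mem_ofPred_eq, Finset.coe_Icc, Set.mem_Icc, Int.le_floor]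
  rw [h1, Set.ncard_coe_finset, Int.card_Icc]
  have h2 : (0 : ℤ) ≤ ⌊z⌋ := Int.floor_nonneg.mpr hz
  have h3 : (⌊z⌋ + 1 - 1).toNat = ⌊z⌋.toNat := by congr 1; ring
  rw [h3]
  have h4 : ((⌊z⌋.toNat : ℕ) : ℝ) = ((⌊z⌋ : ℤ) : ℝ) := by
    have : ((⌊z⌋.toNat : ℕ) : ℤ) = ⌊z⌋ := Int.toNat_of_nonneg h2
    exact_mod_cast this
  rw [h4]
  exact Int.floor_le z

theorem ev_rpow {s : ℝ} (hs : 0 < s) (C : ℝ) : ∀ᶠ x : ℝ in atTop, C ≤ x ^ s :=
  (tendsto_rpow_atTop hs).eventually_ge_atTop C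

theorem general_upper (hR : Rid) {e α A τ ε₀ : ℝ} (he : 0 < e) (hα : 0 < α) (hA : 0 ≤ A)
    (hτ : 0 < τ) (hτe : τ ≤ e) (hε₀ : 0 < ε₀)
    (hlaw : ∀ ε : ℝ, 0 < ε → ∃ X₀ : ℝ, 1 ≤ X₀ ∧ ∀ x : ℝ, X₀ ≤ x → ∀ y : ℝ, 1 ≤ y → y ≤ x →
      ((PSet α x y).ncard : ℝ) ≤ x ^ ε * (y * (x / y) ^ e)) {ε : ℝ} (hε : 0 < ε) :
    ∀ᶠ x : ℝ in atTop, ∀ S : Set ℤ, (∀ n ∈ S, 1 ≤ n ∧ (n : ℝ) ≤ x ∧ ∃ i j : ℕ, i < j ∧
      f5^[i] n = f5^[j] n ∧ (j : ℝ) ≤ A * Real.log x ∧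
      (x ^ τ < n → (j : ℝ) ≤ α * (Real.log n - ε₀ * Real.log x))) →
      (S.ncard : ℝ) ≤ x ^ (e + ε) := by
  obtain ⟨ε', hε'⟩ : ∃ ε' : ℝ, ε' = min (ε / 4) (min ε₀ (min τ 1)) := ⟨_, rfl⟩
  have hε'0 : 0 < ε' := by
    rw [hε']
    exact lt_min (by positivity) (lt_min hε₀ (lt_min hτ one_pos))
  have hε'1 : ε' ≤ ε / 4 := hε' ▸ min_le_left _ _
  have hε'2 : ε' ≤ ε₀ := hε' ▸ (min_le_right _ _).trans (min_le_left _ _)
  have hε'3 : ε' ≤ τ := hε' ▸ (min_le_right _ _).trans ((min_le_right _ _).trans (min_le_left _ _))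
  have hε'4 : ε' ≤ 1 := hε' ▸ (min_le_right _ _).trans ((min_le_right _ _).trans (min_le_right _ _))
  obtain ⟨δ, hδ⟩ : ∃ δ : ℝ, δ = ε' / (2 * (A + 1)) := ⟨_, rfl⟩
  have hδ0 : 0 < δ := by rw [hδ]; positivity
  obtain ⟨C, hC, hreach⟩ := reach_small hR hδ0
  obtain ⟨X₀, hX₀, hlaw'⟩ := hlaw ε' hε'0
  filter_upwards [eventually_ge_atTop X₀, ev_rpow (half_pos hε'0) C, ev_rpow (half_pos hε) 2]
    with x hx hxC hx2 S hS
  have hx1 : 1 ≤ x := hX₀.trans hx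
  have hx0 : 0 < x := by linarith
  have hlog : 0 ≤ Real.log x := Real.log_nonneg hx1
  obtain ⟨y, hy⟩ : ∃ y : ℝ, y = x ^ ε' := ⟨_, rfl⟩
  have hy1 : 1 ≤ y := by rw [hy]; exact Real.one_le_rpow hx1 hε'0.le
  have hyx : y ≤ x := by
    rw [hy]
    calc x ^ ε' ≤ x ^ (1 : ℝ) := Real.rpow_le_rpow_of_exponent_le hx1 hε'4
      _ = x := Real.rpow_one x
  have hlogy : Real.log y = ε' * Real.log x := by rw [hy, Real.log_rpow hx0]
  have hPfin : (PSet α x y).Finite := fin_of' (x := x) fun n hn => hn.2.2.1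
  have hsfin : {n : ℤ | 1 ≤ n ∧ (n : ℝ) ≤ x ^ τ}.Finite :=
    fin_of' (x := x ^ τ) fun n hn => by rw [abs_of_one_le hn.1]; exact hn.2
  have hsub : S ⊆ {n : ℤ | 1 ≤ n ∧ (n : ℝ) ≤ x ^ τ} ∪ PSet α x y := by
    intro n hn
    obtain ⟨h1, h2, i, j, hij, heq, hj, hj2⟩ := hS n hn
    by_cases hnt : (n : ℝ) ≤ x ^ τ
    · exact Or.inl ⟨h1, hnt⟩
    · right
      have hnt' := not_le.mp hnt
      have hjα := hj2 hnt'
      obtain ⟨k, hk, hk1, hkC⟩ := hreach n i j h1 hij heq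
      have hn1 : (1 : ℝ) ≤ n := by exact_mod_cast h1
      refine ⟨by omega, ?_, ?_, k, ?_, ?_⟩
      · rw [abs_of_one_le h1, hy]
        exact lt_of_le_of_lt (Real.rpow_le_rpow_of_exponent_le hx1 hε'3) hnt'
      · rw [abs_of_one_le h1]
        exact h2
      · rw [abs_of_one_le hk1]
        refine hkC.trans ?_
        have h3 : Real.exp (δ * j) ≤ x ^ (ε' / 2) := by
          rw [Real.rpow_def_of_pos hx0]
          apply Real.exp_le_exp.mpr
          have h4 : δ * j ≤ δ * ((A + 1) * Real.log x) := by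
            apply mul_le_mul_of_nonneg_left _ hδ0.le
            linarith
          have h5 : δ * ((A + 1) * Real.log x) = Real.log x * (ε' / 2) := by
            rw [hδ]
            field_simp
          linarith
        calc C * Real.exp (δ * j) ≤ x ^ (ε' / 2) * x ^ (ε' / 2) :=
              mul_le_mul hxC h3 (Real.exp_pos _).le (by positivity)
          _ = y := by
            rw [hy, ← Real.rpow_add hx0]
            congr 1
            ring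
      · rw [abs_of_one_le h1, hlogy]
        have h6 : (k : ℝ) ≤ j := by exact_mod_cast hk
        have h7 : ε' * Real.log x ≤ ε₀ * Real.log x := mul_le_mul_of_nonneg_right hε'2 hlog
        have h8 : α * (Real.log n - ε₀ * Real.log x) ≤ α * (Real.log n - ε' * Real.log x) :=
          mul_le_mul_of_nonneg_left (by linarith) hα.le
        linarith
  have h1 : S.ncard ≤ {n : ℤ | 1 ≤ n ∧ (n : ℝ) ≤ x ^ τ}.ncard + (PSet α x y).ncard :=
    (Set.ncard_le_ncard hsub (hsfin.union hPfin)).trans (Set.ncard_union_le _ _)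
  have h2 : (S.ncard : ℝ) ≤ (({n : ℤ | 1 ≤ n ∧ (n : ℝ) ≤ x ^ τ}.ncard : ℕ) : ℝ) +
      (((PSet α x y).ncard : ℕ) : ℝ) := by exact_mod_cast h1
  have h3 := ncard_small (z := x ^ τ) (by positivity)
  have h4 := hlaw' x hx y hy1 hyx
  have h5 : (x / y) ^ e ≤ x ^ e := by
    apply Real.rpow_le_rpow (by positivity) _ he.le
    exact div_le_self hx0.le hy1
  have h6 : x ^ ε' * (y * (x / y) ^ e) ≤ x ^ (e + ε / 2) := by
    calc x ^ ε' * (y * (x / y) ^ e) ≤ x ^ ε' * (x ^ ε' * x ^ e) := by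
          rw [← hy]
          apply mul_le_mul_of_nonneg_left _ (by positivity)
          exact mul_le_mul_of_nonneg_left h5 (by positivity)
      _ = x ^ (ε' + (ε' + e)) := by
        rw [← Real.rpow_add hx0, ← Real.rpow_add hx0]
      _ ≤ x ^ (e + ε / 2) := Real.rpow_le_rpow_of_exponent_le hx1 (by linarith)
  have h7 : x ^ τ ≤ x ^ (e + ε / 2) := Real.rpow_le_rpow_of_exponent_le hx1 (by linarith)
  calc (S.ncard : ℝ) ≤ 2 * x ^ (e + ε / 2) := by linarith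
    _ ≤ x ^ (ε / 2) * x ^ (e + ε / 2) := mul_le_mul_of_nonneg_right hx2 (by positivity)
    _ = x ^ (e + ε) := by
      rw [← Real.rpow_add hx0]
      congr 1
      ring

/-- upper bound for `PP` -/
theorem upper_PP (hR : Rid) {η : ℝ} (hη : 0 < η) (A : ℝ)
    (hlaw : ∀ α : ℝ, 2 ≤ α → ∀ ε : ℝ, 0 < ε → ∃ X₀ : ℝ, 1 ≤ X₀ ∧ ∀ x : ℝ, X₀ ≤ x →
      ∀ y : ℝ, 1 ≤ y → y ≤ x → ((PSet α x y).ncard : ℝ) ≤ x ^ ε * (y * (x / y) ^ η))
    {ε : ℝ} (hε : 0 < ε) : ∀ᶠ x : ℝ in atTop, ((PP A x).ncard : ℝ) ≤ x ^ (η + ε) := by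
  obtain ⟨A', hA'⟩ : ∃ A' : ℝ, A' = max A 1 := ⟨_, rfl⟩
  have hA1 : 1 ≤ A' := hA' ▸ le_max_right _ _
  have hAA : A ≤ A' := hA' ▸ le_max_left _ _
  obtain ⟨α, hα⟩ : ∃ α : ℝ, α = 2 * A' / η + 2 := ⟨_, rfl⟩
  have hα2 : 2 ≤ α := by
    rw [hα]
    have : 0 ≤ 2 * A' / η := by positivity
    linarith
  filter_upwards [general_upper hR hη (by linarith : 0 < α) (by linarith : 0 ≤ A') hη le_rfl
    (half_pos hη) (hlaw α hα2) hε, eventually_ge_atTop 1] with x hx hx1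
  apply hx
  rintro n ⟨h1, h2, i, j, hij, hj, heq⟩
  have hlog : 0 ≤ Real.log x := Real.log_nonneg hx1
  have hjA : (j : ℝ) ≤ A' * Real.log x := hj.trans (mul_le_mul_of_nonneg_right hAA hlog)
  refine ⟨h1, h2, i, j, hij, heq, hjA, fun hn => ?_⟩
  have hx0 : 0 < x := by linarith
  have h3 : η * Real.log x ≤ Real.log n := by
    rw [← Real.log_rpow hx0]
    exact Real.log_le_log (by positivity) hn.le
  have h4 : α * (η / 2 * Real.log x) ≤ α * (Real.log n - η / 2 * Real.log x) :=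
    mul_le_mul_of_nonneg_left (by linarith) (by linarith)
  have h5 : α * (η / 2 * Real.log x) = A' * Real.log x + η * Real.log x := by
    rw [hα]
    field_simp
  have h6 : 0 ≤ η * Real.log x := by positivity
  linarith

/-- upper bound for `RR` -/
theorem upper_RR (hR : Rid) {e A α : ℝ} (he : 0 < e) (hA : 0 < A) (hAα : A < α)
    (hlaw : ∀ ε : ℝ, 0 < ε → ∃ X₀ : ℝ, 1 ≤ X₀ ∧ ∀ x : ℝ, X₀ ≤ x →
      ∀ y : ℝ, 1 ≤ y → y ≤ x → ((PSet α x y).ncard : ℝ) ≤ x ^ ε * (y * (x / y) ^ e))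
    {ε : ℝ} (hε : 0 < ε) : ∀ᶠ x : ℝ in atTop, ((RR A x).ncard : ℝ) ≤ x ^ (e + ε) := by
  have hα : 0 < α := hA.trans hAα
  have hε₀ : 0 < (α - A) * e / α := by
    have : 0 < α - A := by linarith
    positivity
  filter_upwards [general_upper hR he hα hA.le he le_rfl hε₀ hlaw hε, eventually_ge_atTop 1]
    with x hx hx1
  apply hx
  rintro n ⟨h1, h2, i, j, hij, hj, heq⟩
  have hn1 : (1 : ℝ) ≤ n := by exact_mod_cast h1
  have hx0 : 0 < x := by linarith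
  have hlog : Real.log n ≤ Real.log x := Real.log_le_log (by linarith) h2
  refine ⟨h1, h2, i, j, hij, heq, hj.trans (mul_le_mul_of_nonneg_left hlog hA.le), fun hn => ?_⟩
  have h3 : e * Real.log x ≤ Real.log n := by
    rw [← Real.log_rpow hx0]
    exact Real.log_le_log (by positivity) hn.le
  have h4 : α * (Real.log n - (α - A) * e / α * Real.log x) =
      α * Real.log n - (α - A) * (e * Real.log x) := by
    field_simp
  have h5 : (α - A) * (e * Real.log x) ≤ (α - A) * Real.log n :=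
    mul_le_mul_of_nonneg_left h3 (by linarith)
  rw [h4]
  linarith

/-- lower bound for `RR` -/
theorem lower_RR {e A α : ℝ} (he : 0 < e) (hAα : α < A)
    (hlow : ∀ ε : ℝ, 0 < ε → ∃ X₀ : ℝ, 1 ≤ X₀ ∧ ∀ x : ℝ, X₀ ≤ x →
      x ^ (e - ε) ≤ ((CSet α x).ncard : ℝ))
    {ε : ℝ} (hε : 0 < ε) : ∀ᶠ x : ℝ in atTop, x ^ (e - ε) ≤ ((RR A x).ncard : ℝ) := by
  obtain ⟨ε', hε'⟩ : ∃ ε' : ℝ, ε' = min ε e := ⟨_, rfl⟩
  have hε'0 : 0 < ε' := hε' ▸ lt_min hε he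
  have hε'1 : ε' ≤ ε := hε' ▸ min_le_left _ _
  have hε'2 : ε' ≤ e := hε' ▸ min_le_right _ _
  obtain ⟨X₀, hX₀, hl⟩ := hlow (ε' / 2) (by positivity)
  obtain ⟨N, hN⟩ : ∃ N : ℝ, N = Real.exp (5 / (A - α)) := ⟨_, rfl⟩
  have hN0 : 0 < N := hN ▸ Real.exp_pos _
  filter_upwards [eventually_ge_atTop X₀, ev_rpow (half_pos hε'0) 2,
    ev_rpow (by linarith : 0 < e - ε' / 2) (2 * N)] with x hx hx2 hxN
  have hx1 : 1 ≤ x := hX₀.trans hx
  have hx0 : 0 < x := by linarith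
  have h1 := hl x hx
  have hsub : CSet α x ⊆ RR A x ∪ {n : ℤ | 1 ≤ n ∧ (n : ℝ) ≤ N} := by
    rintro n ⟨hn0, hnx, k, hk, hkα⟩
    have hn1 : 1 ≤ n := by
      by_contra hcon
      have hneg : n ≤ -1 := by omega
      have := iter_neg hneg k
      rw [Set.mem_singleton_iff.mp hk] at this
      omega
    rw [abs_of_one_le hn1] at hnx hkα
    by_cases hnN : (n : ℝ) ≤ N
    · exact Or.inr ⟨hn1, hnN⟩
    · left
      have hnN' := not_le.mp hnN
      refine ⟨hn1, hnx, k, k + 5, by omega, ?_, ?_⟩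
      · have h2 : 5 / (A - α) ≤ Real.log n := by
          rw [Real.le_log_iff_exp_le (by linarith), ← hN]
          exact hnN'.le
        have hAα' : 0 < A - α := by linarith
        rw [div_le_iff₀ hAα'] at h2
        push_cast
        linarith
      · rw [add_comm k 5, Function.iterate_add_apply, Set.mem_singleton_iff.mp hk]
        decide
  have hRfin : (RR A x).Finite := fin_of' (x := x) fun n hn => by
    rw [abs_of_one_le hn.1]
    exact hn.2.1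
  have hsfin : {n : ℤ | 1 ≤ n ∧ (n : ℝ) ≤ N}.Finite :=
    fin_of' (x := N) fun n hn => by rw [abs_of_one_le hn.1]; exact hn.2
  have h2 : (CSet α x).ncard ≤ (RR A x).ncard + {n : ℤ | 1 ≤ n ∧ (n : ℝ) ≤ N}.ncard :=
    (Set.ncard_le_ncard hsub (hRfin.union hsfin)).trans (Set.ncard_union_le _ _)
  have h3 : ((CSet α x).ncard : ℝ) ≤ ((RR A x).ncard : ℝ) +
      (({n : ℤ | 1 ≤ n ∧ (n : ℝ) ≤ N}.ncard : ℕ) : ℝ) := by exact_mod_cast h2
  have h4 := ncard_small (z := N) hN0.le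
  have h5 : 2 * x ^ (e - ε) ≤ x ^ (e - ε' / 2) := by
    calc 2 * x ^ (e - ε) ≤ x ^ (ε' / 2) * x ^ (e - ε) :=
          mul_le_mul_of_nonneg_right hx2 (by positivity)
      _ = x ^ (ε' / 2 + (e - ε)) := (Real.rpow_add hx0 _ _).symm
      _ ≤ x ^ (e - ε' / 2) := Real.rpow_le_rpow_of_exponent_le hx1 (by linarith)
  linarith

/-- from power bounds to the limit -/
theorem tendsto_of_bounds {c : ℝ → ℝ} {e : ℝ}
    (hl : ∀ ε : ℝ, 0 < ε → ∀ᶠ x : ℝ in atTop, x ^ (e - ε) ≤ c x)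
    (hu : ∀ ε : ℝ, 0 < ε → ∀ᶠ x : ℝ in atTop, c x ≤ x ^ (e + ε)) :
    Tendsto (fun x => Real.log (c x) / Real.log x) atTop (𝓝 e) := by
  rw [Metric.tendsto_nhds]
  intro ε hε
  filter_upwards [hl (ε / 2) (by positivity), hu (ε / 2) (by positivity),
    eventually_gt_atTop 1] with x h1 h2 hx1
  have hx0 : 0 < x := by linarith
  have hlog : 0 < Real.log x := Real.log_pos hx1
  have hc : 0 < c x := lt_of_lt_of_le (by positivity) h1
  have h3 := Real.log_le_log (by positivity) h1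
  have h4 := Real.log_le_log hc h2
  rw [Real.log_rpow hx0] at h3 h4
  rw [Real.dist_eq, abs_lt]
  constructor
  · have : e - ε / 2 ≤ Real.log (c x) / Real.log x := by
      rw [le_div_iff₀ hlog]
      exact h3
    linarith
  · have : Real.log (c x) / Real.log x ≤ e + ε / 2 := by
      rw [div_le_iff₀ hlog]
      exact h4
    linarith

end Pool.Agent.N527.FD
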