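import Pool.Agent.N527.FD.Cyc
import Pool.Agent.N685.FD.DG
import Pool.Agent.TH930.HW.Ridout

/-!
# The integers whose `5x+1` orbit is seen to be periodic within a logarithmic time
-/

set_option autoImplicit false

namespace Pool.Agent.N527.FD

open Filter Topology
open Pool.Agent.N685.FD (T Adm IsEta ex Fp rp)
open Pool.Agent.N685.FD.Five (kap)

theorem rid : Rid := by
  intro δ hδ
  have : Fact (Nat.Prime 2) := ⟨Nat.prime_two⟩
  have : Fact (Nat.Prime 5) := ⟨Nat.prime_five⟩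
  obtain ⟨N0, h⟩ := Pool.Agent.TH930.HW.ridout (p := 2) (q := 5) (by norm_num) hδ
  refine ⟨N0, fun N hN L K hL hK X D hX hD h1 h2 h3 h4 => ?_⟩
  exact h N hN L K hL hK X D hX hD (by exact_mod_cast h1) (by exact_mod_cast h2)
    (by exact_mod_cast h3) (by exact_mod_cast h4)

theorem f5_eq : f5 = T 5 1 := by
  funext n
  unfold f5 T
  norm_num

theorem adm51 : Adm 5 1 := ⟨Or.inr rfl, by norm_num, by norm_num⟩

theorem good1 : Pool.Agent.N685.FD.DG.Good 5 ({1} : Set ℤ) :=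
  ⟨Set.finite_singleton _, 1, rfl, one_ne_zero, by norm_num⟩

theorem pset_eq (α x y : ℝ) : PSet α x y = Pool.Agent.N685.FD.UN.PS 5 1 1 α x y := by
  unfold PSet Pool.Agent.N685.FD.UN.PS
  rw [f5_eq]

theorem cset_eq (α x : ℝ) : CSet α x = Pool.Agent.N685.FD.DG.Ct 5 1 {1} α x := by
  unfold CSet Pool.Agent.N685.FD.DG.Ct
  rw [f5_eq]

theorem two_gt : 1 / Real.log 2 < 2 := by
  rw [div_lt_iff₀ (Real.log_pos (by norm_num))]
  have := Real.log_two_gt_d9
  linarith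

theorem RR_sub_PP {A x : ℝ} (hA : 0 ≤ A) : RR A x ⊆ PP A x := by
  rintro n ⟨h1, h2, i, j, hij, hj, he⟩
  have hn1 : (1 : ℝ) ≤ n := by exact_mod_cast h1
  have hlog : Real.log n ≤ Real.log x := Real.log_le_log (by linarith) h2
  exact ⟨h1, h2, i, j, hij, hj.trans (mul_le_mul_of_nonneg_left hlog hA), he⟩

theorem RR_mono {A A' x : ℝ} (h : A ≤ A') : RR A x ⊆ RR A' x := by
  rintro n ⟨h1, h2, i, j, hij, hj, he⟩
  have hn1 : (1 : ℝ) ≤ n := by exact_mod_cast h1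
  exact ⟨h1, h2, i, j, hij, hj.trans (mul_le_mul_of_nonneg_right h (Real.log_nonneg hn1)), he⟩

theorem PP_fin (A x : ℝ) : (PP A x).Finite := fin_of' (x := x) fun n hn => by
  rw [abs_of_one_le hn.1]
  exact hn.2.1

theorem RR_fin (A x : ℝ) : (RR A x).Finite := fin_of' (x := x) fun n hn => by
  rw [abs_of_one_le hn.1]
  exact hn.2.1

theorem ex_cont {A : ℝ} (hA : 0 < A) : ContinuousAt (ex 5) A := by
  unfold ex rp
  have h1 : ContinuousAt (fun α : ℝ => (Real.log 2 - 1 / α) / Real.log (5 : ℕ)) A := by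
    apply ContinuousAt.div_const
    exact continuousAt_const.sub (continuousAt_const.div continuousAt_id hA.ne')
  exact continuousAt_id.mul ((Pool.Agent.N685.FD.Fp_cont 5).continuousAt.comp h1)

theorem one_div_log_pos : (0 : ℝ) < 1 / Real.log 2 := by
  have := Real.log_pos (by norm_num : (1 : ℝ) < 2)
  positivity

/-- lower bound at the level `A ≤ κ` -/
theorem low_level {η : ℝ} (h : IsEta η) {A : ℝ} (h1 : 1 / Real.log 2 < A) (hk : A ≤ kap η)
    {ε : ℝ} (hε : 0 < ε) : ∀ᶠ x : ℝ in atTop, x ^ (ex 5 A - ε) ≤ ((RR A x).ncard : ℝ) := by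
  have hA0 : 0 < A := one_div_log_pos.trans h1
  obtain ⟨d, hd, hball⟩ := Metric.continuousAt_iff.mp (ex_cont hA0) (ε / 2) (by positivity)
  obtain ⟨α, hα⟩ : ∃ α : ℝ, α = max (A - d / 2) ((A + 1 / Real.log 2) / 2) := ⟨_, rfl⟩
  have hαA : α < A := by rw [hα]; exact max_lt (by linarith) (by linarith)
  have hα1 : 1 / Real.log 2 < α := by
    rw [hα]
    exact lt_of_lt_of_le (by linarith) (le_max_right _ _)
  have hαd : A - d / 2 ≤ α := by rw [hα]; exact le_max_left _ _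
  have hdist : dist α A < d := by
    rw [Real.dist_eq, abs_lt]
    constructor <;> linarith
  have hex := hball hdist
  rw [Real.dist_eq, abs_lt] at hex
  have hα0 : 0 < α := one_div_log_pos.trans hα1
  have hpos : 0 < ex 5 α :=
    mul_pos hα0 (Pool.Agent.N685.FD.Five.Fp_pos h hα1 (hαA.le.trans hk))
  have hlow : ∀ ε : ℝ, 0 < ε → ∃ X₀ : ℝ, 1 ≤ X₀ ∧ ∀ x : ℝ, X₀ ≤ x →
      x ^ (ex 5 α - ε) ≤ ((CSet α x).ncard : ℝ) := by
    intro ε hε
    obtain ⟨X₀, hX₀, g⟩ := Pool.Agent.N685.FD.DG.count5_low adm51 good1 h hα1 (hαA.le.trans hk) hε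
    refine ⟨X₀, hX₀, fun x hx => ?_⟩
    rw [cset_eq]
    exact (g x hx).1
  filter_upwards [lower_RR hpos hαA hlow (half_pos hε), eventually_ge_atTop 1] with x hx hx1
  exact (Real.rpow_le_rpow_of_exponent_le hx1 (by linarith)).trans hx

/-- upper bound for `PP` -/
theorem up_PP {η : ℝ} (h : IsEta η) (A : ℝ) {ε : ℝ} (hε : 0 < ε) :
    ∀ᶠ x : ℝ in atTop, ((PP A x).ncard : ℝ) ≤ x ^ (η + ε) := by
  refine upper_PP rid (by linarith [h.1]) A (fun α hα ε hε => ?_) hε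
  obtain ⟨X₀, hX₀, g⟩ := Pool.Agent.N685.FD.DG.law5_upper (d := 1) (s := 1) adm51 (Or.inl rfl) h
    (lt_of_lt_of_le two_gt hα) hε
  refine ⟨X₀, hX₀, fun x hx y hy hyx => ?_⟩
  rw [pset_eq]
  exact g x hx y hy hyx

/-- upper bound at the level `A ≤ κ` -/
theorem up_level {η : ℝ} (h : IsEta η) {A : ℝ} (h1 : 1 / Real.log 2 < A) (hk : A ≤ kap η)
    {ε : ℝ} (hε : 0 < ε) : ∀ᶠ x : ℝ in atTop, ((RR A x).ncard : ℝ) ≤ x ^ (ex 5 A + ε) := by
  have hA0 : 0 < A := one_div_log_pos.trans h1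
  rcases lt_or_eq_of_le hk with hlt | heq
  · obtain ⟨d, hd, hball⟩ := Metric.continuousAt_iff.mp (ex_cont hA0) (ε / 2) (by positivity)
    obtain ⟨α, hα⟩ : ∃ α : ℝ, α = min (A + d / 2) (kap η) := ⟨_, rfl⟩
    have hαA : A < α := by rw [hα]; exact lt_min (by linarith) hlt
    have hα1 : 1 / Real.log 2 < α := h1.trans hαA
    have hαk : α ≤ kap η := by rw [hα]; exact min_le_right _ _
    have hαd : α ≤ A + d / 2 := by rw [hα]; exact min_le_left _ _
    have hdist : dist α A < d := by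
      rw [Real.dist_eq, abs_lt]
      constructor <;> linarith
    have hex := hball hdist
    rw [Real.dist_eq, abs_lt] at hex
    have hα0 : 0 < α := hA0.trans hαA
    have hpos : 0 < ex 5 α := mul_pos hα0 (Pool.Agent.N685.FD.Five.Fp_pos h hα1 hαk)
    have he : ex 5 α < 1 :=
      lt_of_le_of_lt (Pool.Agent.N685.FD.Five.ex_le h hα1 hαk) (by linarith [h.2.1])
    have hlaw : ∀ ε : ℝ, 0 < ε → ∃ X₀ : ℝ, 1 ≤ X₀ ∧ ∀ x : ℝ, X₀ ≤ x →
        ∀ y : ℝ, 1 ≤ y → y ≤ x →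
          ((PSet α x y).ncard : ℝ) ≤ x ^ ε * (y * (x / y) ^ (ex 5 α)) := by
      intro ε hε
      obtain ⟨X₀, hX₀, g⟩ := Pool.Agent.N685.FD.UN.ps_upper (d := 1) (s := 1) adm51 (Or.inl rfl) hα1
        (Pool.Agent.N685.FD.Five.tight_low h hα1 hαk) he hε
      refine ⟨X₀, hX₀, fun x hx y hy hyx => ?_⟩
      rw [pset_eq]
      exact g x hx y hy hyx
    filter_upwards [upper_RR rid hpos hA0 hαA hlaw (half_pos hε), eventually_ge_atTop 1]
      with x hx hx1
    exact hx.trans (Real.rpow_le_rpow_of_exponent_le hx1 (by linarith))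
  · filter_upwards [up_PP h A hε] with x hx
    rw [heq, Pool.Agent.N685.FD.Five.ex_kap h, ← heq]
    refine le_trans ?_ hx
    exact_mod_cast Set.ncard_le_ncard (RR_sub_PP hA0.le) (PP_fin A x)

theorem main : ∃ η : ℝ, (0.6509 < η ∧ η < 0.65095 ∧ (2 : ℝ) ^ η = 1 + 5 ^ (η - 1)) ∧
    (∀ A : ℝ, 1 / (Real.log 2 - (1 - (2 : ℝ) ^ (-η)) * Real.log 5) ≤ A →
      Tendsto (fun x : ℝ => Real.log ((PP A x).ncard : ℝ) / Real.log x) atTop (𝓝 η) ∧
      Tendsto (fun x : ℝ => Real.log ((RR A x).ncard : ℝ) / Real.log x) atTop (𝓝 η)) ∧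
    ∀ A : ℝ, 1 / Real.log 2 < A → A ≤ 1 / (Real.log 2 - (1 - (2 : ℝ) ^ (-η)) * Real.log 5) →
      Tendsto (fun x : ℝ => Real.log ((RR A x).ncard : ℝ) / Real.log x) atTop
        (𝓝 (A * (Real.binEntropy ((Real.log 2 - 1 / A) / Real.log 5) -
          (Real.log 2 - 1 / A) / Real.log 5 * Real.log 5))) := by
  obtain ⟨η, h⟩ := Pool.Agent.N685.FD.DG.exists_eta5
  have hkap := Pool.Agent.N685.FD.Five.kap_gt h
  have hk0 : 0 < kap η := one_div_log_pos.trans hkap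
  refine ⟨η, h, fun A hA => ?_, fun A h1 hA => ?_⟩
  · change kap η ≤ A at hA
    have hA0 : 0 < A := hk0.trans_le hA
    have hlR : ∀ ε : ℝ, 0 < ε → ∀ᶠ x : ℝ in atTop, x ^ (η - ε) ≤ ((RR A x).ncard : ℝ) := by
      intro ε hε
      filter_upwards [low_level h hkap le_rfl hε] with x hx
      rw [Pool.Agent.N685.FD.Five.ex_kap h] at hx
      refine hx.trans ?_
      exact_mod_cast Set.ncard_le_ncard (RR_mono hA) (RR_fin A x)
    have huP : ∀ ε : ℝ, 0 < ε → ∀ᶠ x : ℝ in atTop, ((PP A x).ncard : ℝ) ≤ x ^ (η + ε) :=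
      fun ε hε => up_PP h A hε
    have hRP : ∀ x, ((RR A x).ncard : ℝ) ≤ ((PP A x).ncard : ℝ) := by
      intro x
      exact_mod_cast Set.ncard_le_ncard (RR_sub_PP hA0.le) (PP_fin A x)
    exact ⟨tendsto_of_bounds (fun ε hε => (hlR ε hε).mono fun x hx => hx.trans (hRP x)) huP,
      tendsto_of_bounds hlR (fun ε hε => (huP ε hε).mono fun x hx => (hRP x).trans hx)⟩
  · change A ≤ kap η at hA
    have e : A * (Real.binEntropy ((Real.log 2 - 1 / A) / Real.log 5) -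
          (Real.log 2 - 1 / A) / Real.log 5 * Real.log 5) = ex 5 A := by
      unfold ex Fp rp
      norm_num
    rw [e]
    exact tendsto_of_bounds (fun ε hε => low_level h h1 hA hε) (fun ε hε => up_level h h1 hA hε)

end Pool.Agent.N527.FD
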